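import Pool.Agent.H28.EN.Targets

/-!
# Row DIF of `en1_modules`: the difference quotient is a test
-/

set_option autoImplicit false

open Finset Pool.Agent.H6.N4D Pool.Agent.H93.EB Pool.Agent.H28.EN

namespace Pool.Agent.H23.EN

theorem cos_eq (x : ℝ) : Real.cos (2 * Real.pi * x) = (ee (-x)).re := by
  unfold ee
  rw [Complex.exp_ofReal_mul_I_re]
  rw [show 2 * Real.pi * -x = -(2 * Real.pi * x) by ring, Real.cos_neg]

theorem pf_DIF : T_DIF := by
  intro lam q N n θ φ r s hN
  have hN0 : (0 : ℝ) < N := by exact_mod_cast hN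
  have hpi := Real.pi_pos
  set ρ : ℝ := |r| + |s| with hρ
  -- the difference
  have hdiff : ∀ m : ℕ, Real.cos (2 * Real.pi * (th N θ s * m + ph N n φ r s)) =
      (ee (-φ) * (ee (-(θ * m)) * ee (-(r + s * tt N n m)))).re := by
    intro m
    rw [cos_eq, ← ee_add, ← ee_add]
    congr 2
    unfold th ph tt
    field_simp
    ring
  have hcos : ∀ m : ℕ, Real.cos (2 * Real.pi * (θ * m + φ)) =
      (ee (-φ) * ee (-(θ * m))).re := by
    intro m
    rw [cos_eq, ← ee_add]
    congr 2
    ring
  have hmain : G (dq lam q) N n (th N θ s) (ph N n φ r s) - G (dq lam q) N n θ φ =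
      (ee (-φ) * ((∑ m ∈ Ioc n (n + N), (lam m : ℂ) * (D q m : ℂ) * ee (-(θ * m)) *
        (ee (-(r + s * tt N n m)) - 1)) / N)).re := by
    unfold G
    rw [← sub_div, ← Finset.sum_sub_distrib, mul_div_assoc', Finset.mul_sum]
    rw [show ((N : ℂ)) = ((N : ℝ) : ℂ) by simp, Complex.div_ofReal_re, Complex.re_sum]
    congr 1
    apply Finset.sum_congr rfl
    intro m _
    rw [hdiff, hcos]
    unfold dq
    rw [← mul_sub, ← Complex.sub_re, ← Complex.re_ofReal_mul]
    congr 1
    push_cast
    ring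
  by_cases h0 : ρ = 0
  · have hr : r = 0 := by
      have := abs_nonneg r
      have := abs_nonneg s
      exact abs_eq_zero.1 (by linarith)
    have hs : s = 0 := by
      have := abs_nonneg r
      have := abs_nonneg s
      exact abs_eq_zero.1 (by linarith)
    refine ⟨fun _ => 0, ⟨fun m _ => by simp, by simp⟩, ?_⟩
    rw [h0, hmain, hr, hs]
    have h1 : ee (-(0 + 0 * tt N n 0)) = 1 := by
      have := ee_int 0
      simpa using this
    have h2 : ∀ m : ℕ, ee (-(0 + 0 * tt N n m)) - 1 = 0 := by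
      intro m
      rw [zero_mul] at h1 ⊢
      rw [h1, sub_self]
    simp only [h2, mul_zero, Finset.sum_const_zero, zero_div, Complex.zero_re, abs_zero]
    simp
  have hρ0 : 0 < ρ := lt_of_le_of_ne (by positivity) (Ne.symm h0)
  have hc0 : (0 : ℝ) < 2 * Real.pi * ρ := by positivity
  refine ⟨fun m => (ee (-(r + s * tt N n m)) - 1) / ((2 * Real.pi * ρ : ℝ) : ℂ), ⟨?_, ?_⟩, ?_⟩
  · intro m hm
    rw [mem_Ioc] at hm
    rw [norm_div, Complex.norm_real, Real.norm_eq_abs, abs_of_pos hc0, div_le_one hc0]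
    refine (norm_ee_sub_one_le _).trans ?_
    have h1 : 0 ≤ tt N n m ∧ tt N n m ≤ 1 := by
      have e1 : (n : ℝ) < m := by exact_mod_cast hm.1
      have e2 : (m : ℝ) ≤ n + N := by exact_mod_cast hm.2
      unfold tt
      constructor
      · exact div_nonneg (by linarith) hN0.le
      · rw [div_le_one hN0]; linarith
    have h2 : |-(r + s * tt N n m)| ≤ ρ := by
      rw [abs_neg]
      refine (abs_add_le _ _).trans ?_
      rw [abs_mul, abs_of_nonneg h1.1]
      have := mul_le_mul_of_nonneg_left h1.2 (abs_nonneg s)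
      linarith
    exact mul_le_mul_of_nonneg_left h2 (by positivity)
  · have h1 : ∀ m ∈ Ioo n (n + N), ‖(ee (-(r + s * tt N n (m + 1))) - 1) /
        ((2 * Real.pi * ρ : ℝ) : ℂ) - (ee (-(r + s * tt N n m)) - 1) /
        ((2 * Real.pi * ρ : ℝ) : ℂ)‖ ≤ 1 / N := by
      intro m _
      rw [← sub_div, norm_div, Complex.norm_real, Real.norm_eq_abs, abs_of_pos hc0,
        sub_sub_sub_cancel_right, div_le_iff₀ hc0]
      refine (norm_ee_sub_le _ _).trans ?_
      have h2 : nd (-(r + s * tt N n (m + 1)) - -(r + s * tt N n m)) ≤ |s| / N := by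
        refine (nd_le_abs _).trans (le_of_eq ?_)
        have h3 : -(r + s * tt N n (m + 1)) - -(r + s * tt N n m) = -(s / N) := by
          unfold tt
          push_cast
          field_simp
          ring
        rw [h3, abs_neg, abs_div, abs_of_pos hN0]
      have h4 : |s| / N ≤ ρ / N := by
        apply div_le_div_of_nonneg_right _ hN0.le
        have := abs_nonneg r
        linarith
      calc 2 * Real.pi * nd (-(r + s * tt N n (m + 1)) - -(r + s * tt N n m)) ≤
          2 * Real.pi * (ρ / N) := mul_le_mul_of_nonneg_left (h2.trans h4) (by positivity)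
        _ = 1 / N * (2 * Real.pi * ρ) := by ring
    refine (Finset.sum_le_sum h1).trans ?_
    rw [Finset.sum_const, Nat.card_Ioo, nsmul_eq_mul, mul_one_div, div_le_iff₀ hN0]
    have h5 : ((n + N - n - 1 : ℕ) : ℝ) ≤ N := by
      exact_mod_cast (by omega : n + N - n - 1 ≤ N)
    linarith
  · rw [hmain]
    refine (Complex.abs_re_le_norm _).trans (le_of_eq ?_)
    rw [norm_mul, norm_ee, one_mul]
    unfold zz
    have h1 : (∑ m ∈ Ioc n (n + N), (lam m : ℂ) * (D q m : ℂ) * ee (-(θ * m)) *
        (ee (-(r + s * tt N n m)) - 1)) / N = ((2 * Real.pi * ρ : ℝ) : ℂ) *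
        ((∑ m ∈ Ioc n (n + N), (lam m : ℂ) * (D q m : ℂ) * ee (-(θ * m)) *
        ((ee (-(r + s * tt N n m)) - 1) / ((2 * Real.pi * ρ : ℝ) : ℂ))) / N) := by
      have hc : ((2 * Real.pi * ρ : ℝ) : ℂ) ≠ 0 := by
        exact_mod_cast hc0.ne'
      rw [mul_div_assoc', Finset.mul_sum]
      congr 1
      apply Finset.sum_congr rfl
      intro m _
      field_simp
    rw [h1, norm_mul, Complex.norm_real, Real.norm_eq_abs, abs_of_pos hc0]

end Pool.Agent.H23.EN
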