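import Pool.Agent.H28.EN.Targets

/-!
# Row TOP of `en1_modules`: the largest correlation is attained
-/

set_option autoImplicit false

open Finset Pool.Agent.H6.N4D Pool.Agent.H93.EB Pool.Agent.H28.EN

namespace Pool.Agent.H23.EN

theorem continuous_ee : Continuous ee := by
  unfold ee
  fun_prop

theorem continuous_cr (f : ℕ → ℝ) (N n : ℕ) : Continuous (cr f N n) := by
  unfold cr
  have := continuous_ee
  fun_prop

theorem ee_periodic (θ : ℝ) (k : ℤ) (m : ℕ) : ee (-((θ + k) * m)) = ee (-(θ * m)) := by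
  have h1 : -((θ + k) * m) = -(θ * m) + ((-(k * m) : ℤ) : ℝ) := by
    push_cast
    ring
  rw [h1, ee_add, ee_int, mul_one]

theorem cr_periodic (f : ℕ → ℝ) (N n : ℕ) (θ : ℝ) (k : ℤ) :
    cr f N n (θ + k) = cr f N n θ := by
  unfold cr
  congr 1
  apply Finset.sum_congr rfl
  intro m _
  rw [ee_periodic]

theorem exists_max (f : ℕ → ℝ) (N n : ℕ) :
    ∃ θ₀ : ℝ, ∀ θ : ℝ, ‖cr f N n θ‖ ≤ ‖cr f N n θ₀‖ := by
  obtain ⟨θ₀, -, h⟩ := (isCompact_Icc (a := (0 : ℝ)) (b := 1)).exists_isMaxOn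
    ⟨0, by simp⟩ ((continuous_cr f N n).norm.continuousOn)
  refine ⟨θ₀, fun θ => ?_⟩
  have h1 : cr f N n θ = cr f N n (Int.fract θ) := by
    have := cr_periodic f N n (Int.fract θ) ⌊θ⌋
    rw [Int.fract_add_floor] at this
    exact this
  rw [h1]
  exact h ⟨Int.fract_nonneg θ, (Int.fract_lt_one θ).le⟩

theorem exists_phase (z : ℂ) : ∃ φ : ℝ, ee (-φ) * z = (‖z‖ : ℂ) := by
  refine ⟨Complex.arg z / (2 * Real.pi), ?_⟩
  have h1 : 2 * Real.pi * (-(Complex.arg z / (2 * Real.pi))) = -Complex.arg z := by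
    have := Real.pi_pos
    field_simp
  unfold ee
  rw [h1]
  have h2 := Complex.norm_mul_exp_arg_mul_I z
  calc Complex.exp ((-Complex.arg z : ℝ) * Complex.I) * z =
      Complex.exp ((-Complex.arg z : ℝ) * Complex.I) *
        ((‖z‖ : ℂ) * Complex.exp (Complex.arg z * Complex.I)) := by rw [h2]
    _ = (‖z‖ : ℂ) * (Complex.exp ((-Complex.arg z : ℝ) * Complex.I) *
        Complex.exp (Complex.arg z * Complex.I)) := by ring
    _ = (‖z‖ : ℂ) := by
        rw [← Complex.exp_add]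
        push_cast
        rw [neg_mul, neg_add_cancel, Complex.exp_zero, mul_one]

theorem pf_TOP (h : T_GRE) : T_TOP := by
  intro f N n
  obtain ⟨θ₀, h0⟩ := exists_max f N n
  have hM : M f N n = ‖cr f N n θ₀‖ := by
    unfold M
    apply le_antisymm
    · exact ciSup_le h0
    · exact le_ciSup (f := fun θ => ‖cr f N n θ‖) ⟨_, by rintro _ ⟨θ, rfl⟩; exact h0 θ⟩ θ₀
  have hle : ∀ θ, ‖cr f N n θ‖ ≤ M f N n := fun θ => by rw [hM]; exact h0 θ
  refine ⟨hle, ?_⟩
  obtain ⟨φ₀, hφ⟩ := exists_phase (cr f N n θ₀)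
  have hG : G f N n θ₀ φ₀ = M f N n := by
    rw [h, hφ, hM, Complex.ofReal_re]
  refine ⟨θ₀, φ₀, ?_, hG⟩
  intro θ' φ'
  rw [hG, h]
  refine (Complex.re_le_norm _).trans ?_
  rw [norm_mul, norm_ee, one_mul]
  exact hle θ'

end Pool.Agent.H23.EN
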